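import Pool.Agent.Helper99.MKV.GoalsC

/-!
# MKV, packet GQ: the hitting probability of the origin is bounded below
-/

open Finset

namespace Pool.Agent.Helper27.MKV

open Pool.Agent.Helper99.MKV Pool.Agent.Helper99.EXC Pool.Agent.Helper99.ERW

theorem GQ (hSQS : SQS_stmt) (hVSM : VSM_stmt) (hVIS : VIS_stmt) (hHIE : HIE_stmt) :
    GQ_stmt := by
  intro κ C b B hκ hC hb hB
  obtain ⟨η, hη, hS⟩ := hSQS κ C b B hκ hC hb hB (κ / 8) (by positivity)
  obtain ⟨C', hC', hV⟩ := hVIS κ C b B hκ hC hb hB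
  refine ⟨min 1 (κ / (4 * C' + 4)), η, lt_min one_pos (by positivity), min_le_left _ _, hη, ?_⟩
  intro E ι _ U a BR S R T ep φ Φ k1 hD hX hP e0 hfreq s0 hfin
  obtain ⟨s1, hs1⟩ := hS E ι U a BR S R T ep φ Φ k1 hD hX hP e0 s0 hfin
  obtain ⟨n1, hn1⟩ := exists_nat_ge (8 * (|φ s0.1| + 4 * B * C * (Bx b k1).card) / κ)
  have hev : ∀ᶠ s : ℕ in Filter.atTop, s1 ≤ s ∧ k1 ≤ s ∧ 1 ≤ s ∧ s0.1 ∈ Bx b (s + 1) ∧
      |φ s0.1| + 4 * B * C * (Bx b k1).card ≤ κ * s / 8 := by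
    filter_upwards [Filter.eventually_ge_atTop s1, Filter.eventually_ge_atTop k1,
      Filter.eventually_ge_atTop 1, Filter.eventually_ge_atTop n1,
      Filter.eventually_ge_atTop (s0.1 0).natAbs,
      Filter.eventually_ge_atTop (s0.1 1).natAbs] with s a1 a2 a3 a4 a5 a6
    refine ⟨a1, a2, a3, ?_, ?_⟩
    · unfold Bx
      rw [mem_box]
      have h1 : s < 2 ^ s := Nat.lt_two_pow_self
      have h2 : 2 ^ s ≤ b * 2 ^ (s + 1) := by
        calc 2 ^ s ≤ 2 ^ (s + 1) := Nat.pow_le_pow_right (by norm_num) (by omega)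
          _ = 1 * 2 ^ (s + 1) := (one_mul _).symm
          _ ≤ b * 2 ^ (s + 1) := Nat.mul_le_mul_right _ hb
      have h3 : s ≤ b * 2 ^ (s + 1) := h1.le.trans h2
      intro l
      fin_cases l
      · show |s0.1 0| ≤ _
        rw [Int.abs_eq_natAbs]
        exact_mod_cast a5.trans h3
      · show |s0.1 1| ≤ _
        rw [Int.abs_eq_natAbs]
        exact_mod_cast a6.trans h3
    · have h1 : (n1 : ℝ) ≤ s := by exact_mod_cast a4
      have h2 := hn1.trans h1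
      rw [div_le_iff₀ hκ] at h2
      linarith
  obtain ⟨s, hs, h1, h2, h3, h4, h5⟩ := (hfreq.and_eventually hev).exists
  have hs0 : (1 : ℝ) ≤ s := by exact_mod_cast h3
  have hks : 0 < κ * s := by positivity
  have hN : ∃ N : ℕ, (κ * s + 2 * C) * Ex U (Bx b (s + 1)) N (one (Bx b (s + 1))) s0 ≤
      κ * s / 8 := by
    obtain ⟨N, hN⟩ := exists_nat_gt
      ((κ * s + 2 * C) * (2 * (((b * 2 ^ (s + 1) : ℕ) : ℝ) + 1) ^ 2) / (κ * s / 8))
    refine ⟨N, ?_⟩
    have g1 : (N : ℝ) * Ex U (Bx b (s + 1)) N (one (Bx b (s + 1))) s0 ≤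
        2 * (((b * 2 ^ (s + 1) : ℕ) : ℝ) + 1) ^ 2 :=
      (hHIE E ι U hD.ok).2.1 (b * 2 ^ (s + 1)) N s0
    rw [div_lt_iff₀ (by positivity)] at hN
    have hNpos : (0 : ℝ) < N := by
      have : 0 < (N : ℝ) * (κ * s / 8) := lt_of_le_of_lt (by positivity) hN
      exact pos_of_mul_pos_left this (by positivity)
    have g2 := mul_le_mul_of_nonneg_left g1 (show 0 ≤ κ * s + 2 * C by positivity)
    have g3 : (N : ℝ) * ((κ * s + 2 * C) * Ex U (Bx b (s + 1)) N (one (Bx b (s + 1))) s0) ≤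
        N * (κ * s / 8) := by
      calc _ = (κ * s + 2 * C) * (N * Ex U (Bx b (s + 1)) N (one (Bx b (s + 1))) s0) := by ring
        _ ≤ _ := g2
        _ ≤ _ := hN.le
    exact le_of_mul_le_mul_left g3 hNpos
  obtain ⟨N, hN⟩ := hN
  refine ⟨N, ?_⟩
  have f1 := hVSM E ι U a S φ Φ κ C b k1 B hD hX s h2 N s0 h4
  have f2 := hs1 s h1 hs N
  have f3 : ∀ (N : ℕ) (t : MSt E), Rw U (Bx b (s + 1)) N (fun t => if t.1 = 0 then 1 else 0) t ≤
      C' * (s + 1) := by
    intro N t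
    have := hV E ι U a S φ Φ k1 hD hX s h2 N t (fun x => if x = 0 then 1 else 0)
      (fun x => by positivity)
    refine this.trans ?_
    have q : ∑ x ∈ Bx b (s + 1), (if x = 0 then (1 : ℝ) else 0) ≤ 1 := by
      rw [Finset.sum_ite_eq']
      split_ifs <;> norm_num
    calc C' * (s + 1) * ∑ x ∈ Bx b (s + 1), (if x = 0 then (1 : ℝ) else 0)
        ≤ C' * (s + 1) * 1 := mul_le_mul_of_nonneg_left q (by positivity)
      _ = C' * (s + 1) := mul_one _
  have f4 := (hHIE E ι U hD.ok).1 (Bx b (s + 1)) (C' * (s + 1)) (by positivity)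
    (fun N t _ => f3 N t) N s0
  have f5 := ((hHIE E ι U hD.ok).2.2 N s0).1
  have f6 : φ s0.1 ≤ |φ s0.1| := le_abs_self _
  have f7 : κ * s / 2 ≤ C' * (s + 1) * hp U N s0 := by linarith
  refine le_of_not_gt fun hcon => ?_
  have c1 : hp U N s0 < κ / (4 * C' + 4) := lt_of_lt_of_le hcon (min_le_right _ _)
  rw [lt_div_iff₀ (by positivity)] at c1
  have c2 : C' * (s + 1) * hp U N s0 ≤ C' * (2 * s) * hp U N s0 := by
    apply mul_le_mul_of_nonneg_right _ f5
    apply mul_le_mul_of_nonneg_left _ hC'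
    linarith
  have c3 : (hp U N s0 * (4 * C' + 4)) * s < κ * s := mul_lt_mul_of_pos_right c1 (by positivity)
  nlinarith [mul_nonneg f5 (show (0 : ℝ) ≤ s by positivity)]

end Pool.Agent.Helper27.MKV
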